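import Pool.Agent.H494R3.NK.Stmts

/-! Task Mat of project H494-NK (helper750). -/

set_option autoImplicit false

namespace Pool.Agent.H750R3.NK

open Pool.Agent.H494R3.NK

universe u

/-- a matrix with entries in the ideal generated by `r` factors through `diag(r, …, r)` -/
theorem factor {A : Type u} [NonUnitalRing A] (r : A) {n : ℕ} (K : Matrix (Fin n) (Fin n) A)
    (hK : ∀ i j, K i j ∈ Ir r) :
    ∃ (m : ℕ) (X : Matrix (Fin n) (Fin m) A) (Y : Matrix (Fin m) (Fin n) A),
      K = X * (Matrix.diagonal (fun _ => r) : Matrix (Fin m) (Fin m) A) * Y := by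
  classical
  choose m x y hxy using hK
  let ι := (p : Fin n × Fin n) × Fin (m p.1 p.2)
  let E : ι ≃ Fin (Fintype.card ι) := Fintype.equivFin ι
  refine ⟨Fintype.card ι,
    Matrix.of fun i a => if (E.symm a).1.1 = i then x (E.symm a).1.1 (E.symm a).1.2 (E.symm a).2 else 0,
    Matrix.of fun a j => if (E.symm a).1.2 = j then y (E.symm a).1.1 (E.symm a).1.2 (E.symm a).2 else 0,
    ?_⟩
  ext i j
  rw [Matrix.mul_apply]
  simp only [Matrix.mul_diagonal, Matrix.of_apply]
  have h1 := Equiv.sum_comp E.symm (fun s : ι =>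
    (if s.1.1 = i then x s.1.1 s.1.2 s.2 else 0) * r * (if s.1.2 = j then y s.1.1 s.1.2 s.2 else 0))
  rw [h1, Fintype.sum_sigma, Fintype.sum_eq_single (i, j)]
  · simp only [if_true]
    exact hxy i j
  · rintro ⟨i', j'⟩ hne
    apply Finset.sum_eq_zero
    intro l _
    by_cases hi : i' = i
    · have hj : j' ≠ j := by
        rintro rfl
        exact hne (by rw [hi])
      simp only [if_neg hj, mul_zero]
    · simp only [if_neg hi, zero_mul]

section
variable {A : Type u} [NonUnitalCStarAlgebra A]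

/-- entrywise inclusion into the unitization -/
noncomputable def io {n : ℕ} (M : Matrix (Fin n) (Fin n) A) :
    Matrix (Fin n) (Fin n) (Unitization ℂ A) :=
  Matrix.of fun i j => (Unitization.inr (M i j) : Unitization ℂ A)

theorem io_apply {n : ℕ} (M : Matrix (Fin n) (Fin n) A) (i j : Fin n) :
    io M i j = (Unitization.inr (M i j) : Unitization ℂ A) := rfl

theorem inr_sum {ι : Type} (s : Finset ι) (f : ι → A) :
    (Unitization.inr (∑ i ∈ s, f i) : Unitization ℂ A) = ∑ i ∈ s, Unitization.inr (f i) := by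
  classical
  induction s using Finset.induction_on with
  | empty => simp
  | insert a s ha ih => rw [Finset.sum_insert ha, Finset.sum_insert ha, Unitization.inr_add, ih]

theorem io_mul {n : ℕ} (M N : Matrix (Fin n) (Fin n) A) : io (M * N) = io M * io N := by
  ext1 i j
  rw [Matrix.mul_apply, io_apply, Matrix.mul_apply, inr_sum]
  apply Finset.sum_congr rfl
  intro k _
  rw [Unitization.inr_mul, io_apply, io_apply]

theorem io_inj {n : ℕ} {M N : Matrix (Fin n) (Fin n) A} (h : io M = io N) : M = N := by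
  ext i j
  have := congrFun (congrFun h i) j
  exact Unitization.inr_injective this

theorem io_mul_range {n : ℕ} (M : Matrix (Fin n) (Fin n) A)
    (N : Matrix (Fin n) (Fin n) (Unitization ℂ A)) :
    ∃ Z : Matrix (Fin n) (Fin n) A, io M * N = io Z := by
  refine ⟨Matrix.of fun i j => ((io M * N) i j).snd, ?_⟩
  ext1 i j
  rw [io_apply, Matrix.of_apply]
  apply Unitization.ext
  · rw [Unitization.fst_inr, Matrix.mul_apply]
    have : ∀ (s : Finset (Fin n)) (f : Fin n → Unitization ℂ A),
        (∑ i ∈ s, f i).fst = ∑ i ∈ s, (f i).fst := by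
      intro s f
      classical
      induction s using Finset.induction_on with
      | empty => simp
      | insert a s ha ih => rw [Finset.sum_insert ha, Finset.sum_insert ha, Unitization.fst_add, ih]
    rw [this]
    apply Finset.sum_eq_zero
    intro k _
    rw [Unitization.fst_mul, io_apply, Unitization.fst_inr, zero_mul]
  · rw [Unitization.snd_inr]

end

section
open scoped Matrix.Norms.Operator

theorem norm_le_sum {U : Type u} [NormedRing U] {n : ℕ} (M : Matrix (Fin n) (Fin n) U) :
    ‖M‖ ≤ ∑ i, ∑ j, ‖M i j‖ := by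
  have h : ‖M‖₊ ≤ ∑ i, ∑ j, ‖M i j‖₊ := by
    rw [Matrix.linfty_opNNNorm_def]
    apply Finset.sup_le
    intro i _
    exact Finset.single_le_sum (f := fun i => ∑ j, ‖M i j‖₊) (fun _ _ => by positivity)
      (Finset.mem_univ i)
  have h2 : ((‖M‖₊ : NNReal) : ℝ) ≤ ((∑ i, ∑ j, ‖M i j‖₊ : NNReal) : ℝ) := by exact_mod_cast h
  push_cast at h2
  exact h2

set_option backward.isDefEq.respectTransparency false in
theorem exists_K {A : Type u} [NonUnitalCStarAlgebra A] {r : A} {n : ℕ}
    {e : Matrix (Fin n) (Fin n) A} (he : e * e = e) (hcl : ∀ i j, e i j ∈ closure (Ir r)) :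
    ∃ K : Matrix (Fin n) (Fin n) A, (∀ i j, K i j ∈ Ir r) ∧
      ∃ w : (Matrix (Fin n) (Fin n) (Unitization ℂ A))ˣ,
        (w : Matrix (Fin n) (Fin n) (Unitization ℂ A)) = 1 - (io e - io e * io K * io e) := by
  set B := Matrix (Fin n) (Fin n) (Unitization ℂ A)
  set c : ℝ := ‖io e‖ * ‖io e‖ * ((n : ℝ) * n) with hc
  have hc0 : 0 ≤ c := by positivity
  have hε : 0 < 1 / (c + 1) := by positivity
  have h1 : ∀ i j, ∃ k ∈ Ir r, dist (e i j) k < 1 / (c + 1) := fun i j =>
    Metric.mem_closure_iff.1 (hcl i j) _ hε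
  choose K hK hd using h1
  refine ⟨K, hK, ?_⟩
  have hee : io e * io e = io e := by rw [← io_mul, he]
  have ht : io e - io e * io K * io e = io e * (io e - io K) * io e := by
    rw [mul_sub, sub_mul, hee, hee]
  have hn : ‖io e - io K‖ ≤ (n : ℝ) * n * (1 / (c + 1)) := by
    refine (norm_le_sum _).trans ?_
    have h2 : ∀ i ∈ (Finset.univ : Finset (Fin n)), ∑ j, ‖(io e - io K) i j‖ ≤ n * (1 / (c + 1)) := by
      intro i _
      have h3 : ∀ j ∈ (Finset.univ : Finset (Fin n)), ‖(io e - io K) i j‖ ≤ 1 / (c + 1) := by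
        intro j _
        have e1 : (io e - io K) i j = (Unitization.inr (e i j - K i j) : Unitization ℂ A) := by
          rw [Matrix.sub_apply, Unitization.inr_sub]
          rfl
        rw [e1, Unitization.norm_inr, ← dist_eq_norm]
        exact (hd i j).le
      refine (Finset.sum_le_card_nsmul _ _ _ h3).trans ?_
      rw [Finset.card_univ, Fintype.card_fin, nsmul_eq_mul]
    refine (Finset.sum_le_card_nsmul _ _ _ h2).trans ?_
    rw [Finset.card_univ, Fintype.card_fin, nsmul_eq_mul, mul_assoc]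
  have hlt : ‖io e - io e * io K * io e‖ < 1 := by
    rw [ht]
    calc ‖io e * (io e - io K) * io e‖ ≤ ‖io e * (io e - io K)‖ * ‖io e‖ := norm_mul_le _ _
      _ ≤ ‖io e‖ * ‖io e - io K‖ * ‖io e‖ :=
          mul_le_mul_of_nonneg_right (norm_mul_le _ _) (norm_nonneg _)
      _ ≤ ‖io e‖ * ((n : ℝ) * n * (1 / (c + 1))) * ‖io e‖ :=
          mul_le_mul_of_nonneg_right (mul_le_mul_of_nonneg_left hn (norm_nonneg _)) (norm_nonneg _)
      _ = c * (1 / (c + 1)) := by rw [hc]; ring
      _ < 1 := by
          rw [mul_one_div, div_lt_one (by positivity)]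
          linarith
  exact ⟨Units.oneSub _ hlt, rfl⟩

end

theorem taskMat (h : TaskDom.{u}) : TaskMat.{u} := by
  intro A _ r hr n e he hcl
  obtain ⟨K, hK, w, hw⟩ := exists_K he hcl
  obtain ⟨m, X, Y, hXY⟩ := factor r K hK
  obtain ⟨Z, hZ⟩ := io_mul_range e (↑w⁻¹ : Matrix (Fin n) (Fin n) (Unitization ℂ A))
  have hee : io e * io e = io e := by rw [← io_mul, he]
  have h1 : io e * (w : Matrix (Fin n) (Fin n) (Unitization ℂ A)) = io e * io K * io e := by
    rw [hw, mul_sub, mul_one, mul_sub, hee, ← mul_assoc, ← mul_assoc, hee]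
    abel
  have h2 : io e = io (e * K * Z) := by
    rw [io_mul, io_mul, ← hZ, ← mul_assoc, ← h1, mul_assoc, Units.mul_inv, mul_one]
  have h3 : e = e * K * Z := io_inj h2
  have h4 : e = ((e * X) * (Matrix.diagonal (fun _ => r) : Matrix (Fin m) (Fin m) A)) * (Y * Z) := by
    conv_lhs => rw [h3, hXY]
    simp only [Matrix.mul_assoc]
  obtain ⟨z, hz⟩ := h A r hr n m e he (e * X) (Y * Z) h4
  exact ⟨z, m, hz⟩

end Pool.Agent.H750R3.NK
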